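import Pool.Agent.Helper20.Flip.BDefs

/-!
# The bounce phase: an upper bound for the number of bounces (core)
-/

set_option autoImplicit false

namespace Pool.Agent.Helper20.Flip

namespace BNo

/-- the first three edges are sorted -/
def Wst (α p β : ℝ) : Prop := α ≤ p ∧ p ≤ β ∧ |α| ≤ 7 / 5 ∧ |p| ≤ 7 / 5 ∧ |β| ≤ 7 / 5

/-- the middle edge is to the right of both walls -/
def Rst (u : ℝ) (r : ℕ) (α p β : ℝ) : Prop :=
  u ≤ β - α ∧ β - α ≤ 3 / 5 ∧ α ≤ 1 / 8 ∧ -(1 / 8) ≤ β ∧ 0 < p - β ∧ p - β ≤ 3 / 5 ∧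
    p - β < r * u

/-- the middle edge is to the left of both walls -/
def Lst (u : ℝ) (r : ℕ) (α p β : ℝ) : Prop :=
  u ≤ β - α ∧ β - α ≤ 3 / 5 ∧ α ≤ 1 / 8 ∧ -(1 / 8) ≤ β ∧ 0 < α - p ∧ α - p ≤ 3 / 5 ∧
    α - p < r * u

/-- the walls are in the wrong order -/
def Dst (u : ℝ) (r : ℕ) (α p β : ℝ) : Prop :=
  u ≤ α - β ∧ |α| ≤ 1 / 32 ∧ |β| ≤ 1 / 32 ∧ 0 < p - α ∧ p - α ≤ 3 / 5 ∧
    p - α + u < r * u

/-- all states -/
def St (u : ℝ) (r : ℕ) (α p β : ℝ) : Prop :=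
  Wst α p β ∨ Rst u r α p β ∨ Lst u r α p β ∨ Dst u r α p β

theorem abs_bound {u : ℝ} (hu : 0 < u) {r : ℕ} {α p β : ℝ} (h : St u r α p β) :
    |α| ≤ 7 / 5 ∧ |p| ≤ 7 / 5 ∧ |β| ≤ 7 / 5 := by
  rcases h with h | h | h | h
  · exact ⟨h.2.2.1, h.2.2.2.1, h.2.2.2.2⟩
  · obtain ⟨h1, h2, h3, h4, h5, h6, h7⟩ := h
    refine ⟨?_, ?_, ?_⟩ <;> rw [abs_le] <;> constructor <;> linarith
  · obtain ⟨h1, h2, h3, h4, h5, h6, h7⟩ := h
    refine ⟨?_, ?_, ?_⟩ <;> rw [abs_le] <;> constructor <;> linarith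
  · obtain ⟨h1, h2, h3, h4, h5, h6⟩ := h
    rw [abs_le] at h2 h3
    obtain ⟨h2, h2'⟩ := h2
    obtain ⟨h3, h3'⟩ := h3
    refine ⟨?_, ?_, ?_⟩ <;> rw [abs_le] <;> constructor <;> linarith

theorem pos_of_lt_mul {u d : ℝ} (hd : 0 < d) {r : ℕ} (h : d < r * u) : ∃ r' : ℕ, r = r' + 1 := by
  rcases r with _ | r
  · simp at h
    linarith
  · exact ⟨r, rfl⟩

/-- one flip to the right -/
theorem step_R {u lp : ℝ} (hu : 0 < u) (hlp : 0 < lp) (hlp' : lp ≤ 1 / 100) {r : ℕ}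
    {α p β p' β' : ℝ} (h : Rst u r α p β) (h1 : β ≤ β') (h2 : β' ≤ β + 8 * lp * (p - β))
    (h3 : β' - p' = p - β) : ∃ r' < r, St u r' α p' β' := by
  obtain ⟨g1, g2, g3, g4, g5, g6, g7⟩ := h
  obtain ⟨q, rfl⟩ := pos_of_lt_mul g5 g7
  push_cast at g7
  have hb : 8 * lp * (p - β) ≤ 48 / 1000 := by nlinarith
  refine ⟨q, Nat.lt_succ_self q, ?_⟩
  by_cases hd : α ≤ p'
  · left
    refine ⟨hd, by linarith, ?_, ?_, ?_⟩ <;> rw [abs_le] <;> constructor <;> linarith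
  · push Not at hd
    right; right; left
    refine ⟨by linarith, by linarith, g3, by linarith, by linarith, by linarith, by linarith⟩

/-- one flip to the left -/
theorem step_L {u lp : ℝ} (hu : 0 < u) (hlp : 0 < lp) (hlp' : lp ≤ 1 / 100) {r : ℕ}
    {α p β α' p' : ℝ} (h : Lst u r α p β) (h1 : α' ≤ α) (h2 : α - 8 * lp * (α - p) ≤ α')
    (h3 : p' - α' = α - p) : ∃ r' < r, St u r' α' p' β := by
  obtain ⟨g1, g2, g3, g4, g5, g6, g7⟩ := h
  obtain ⟨q, rfl⟩ := pos_of_lt_mul g5 g7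
  push_cast at g7
  have hb : 8 * lp * (α - p) ≤ 48 / 1000 := by nlinarith
  refine ⟨q, Nat.lt_succ_self q, ?_⟩
  by_cases hd : p' ≤ β
  · left
    refine ⟨by linarith, hd, ?_, ?_, ?_⟩ <;> rw [abs_le] <;> constructor <;> linarith
  · push Not at hd
    right; left
    refine ⟨by linarith, by linarith, by linarith, g4, by linarith, by linarith, by linarith⟩

/-- the flip of all three edges -/
theorem step_D {u : ℝ} (hu : 0 < u) {r : ℕ}
    {α p β s : ℝ} (h : Dst u r α p β) (h1 : β < s) (h2 : s < α) :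
    ∃ r' < r, St u r' (2 * s - α) (2 * s - p) (2 * s - β) := by
  obtain ⟨g1, g2, g3, g4, g5, g6⟩ := h
  obtain ⟨q, rfl⟩ := pos_of_lt_mul (by linarith : 0 < p - α + u) g6
  push_cast at g6
  rw [abs_le] at g2 g3
  obtain ⟨g2, g2'⟩ := g2
  obtain ⟨g3, g3'⟩ := g3
  refine ⟨q, Nat.lt_succ_self q, ?_⟩
  right; right; left
  refine ⟨by linarith, by linarith, by linarith, by linarith, by linarith, by linarith,
    by linarith⟩

end BNo

/- ===== MODULE BNO ===== -/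
/-- `bounce_no` from the statements of the module BSTEP -/
theorem bounce_no_of {N : ℕ} {τ lz lp lw : ℝ} {rest : List Edge} (hB : BState N τ lz lp lw rest)
    (bch_ok : ∀ {α p β : ℝ}, |α| ≤ 7 / 5 → |p| ≤ 7 / 5 → |β| ≤ 7 / 5 →
      Ok N (bch τ lz lp lw rest α p β))
    (bch_wsorted : ∀ {α p β : ℝ}, α ≤ p → p ≤ β → β ≤ 7 / 5 →
      WSorted (bch τ lz lp lw rest α p β))
    (not_cstep_of_wsorted : ∀ {c c' : List Edge}, Ok N c → WSorted c → ¬ CStep c c')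
    (flip_right : ∀ {α p β : ℝ}, -(7 / 5) ≤ α → α < β → β < p → p ≤ 7 / 5 →
      ∃ p' β', CStep (bch τ lz lp lw rest α p β) (bch τ lz lp lw rest α p' β') ∧
      (∀ c', CStep (bch τ lz lp lw rest α p β) c' → c' = bch τ lz lp lw rest α p' β') ∧
      β ≤ β' ∧ β' ≤ β + 8 * lp * (p - β) ∧ β' - p' = p - β)
    (flip_left : ∀ {α p β : ℝ}, -(7 / 5) ≤ p → p < α → α < β → β ≤ 7 / 5 →
      ∃ α' p', CStep (bch τ lz lp lw rest α p β) (bch τ lz lp lw rest α' p' β) ∧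
      (∀ c', CStep (bch τ lz lp lw rest α p β) c' → c' = bch τ lz lp lw rest α' p' β) ∧
      α' ≤ α ∧ α - 8 * lp * (α - p) ≤ α' ∧ p' - α' = α - p)
    (flip_all : ∀ {α p β : ℝ}, -(7 / 5) ≤ β → β < α → α < p → p ≤ 7 / 5 →
      64 * lp ≤ α - β → ∃ s, β < s ∧ s < α ∧
      CStep (bch τ lz lp lw rest α p β)
        (bch τ lz lp lw rest (2 * s - α) (2 * s - p) (2 * s - β)) ∧
      (∀ c', CStep (bch τ lz lp lw rest α p β) c' →
        c' = bch τ lz lp lw rest (2 * s - α) (2 * s - p) (2 * s - β)))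
    {u α p β : ℝ} (hu : 0 < u) (hlpu : 64 * lp ≤ u) (hα : |α| ≤ 1 / 32) (hβ : |β| ≤ 1 / 32)
    (hp : |p - 1 / 2| ≤ 1 / 32) (hαβ : u ≤ |β - α|) {K : ℕ} (hK : 1 / u + 3 ≤ K) :
    ∃ G : ℕ → List Edge → Prop,
      G K (bch τ lz lp lw rest α p β) ∧ (∀ r c, G r c → Ok N c) ∧
      ∀ r c c', G r c → CStep c c' → ∃ r' < r, G r' c' := by
  refine ⟨fun r c => ∃ α p β : ℝ, c = bch τ lz lp lw rest α p β ∧ BNo.St u r α p β, ?_, ?_, ?_⟩
  · refine ⟨α, p, β, rfl, ?_⟩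
    have hKu : 1 + 3 * u ≤ K * u := by
      have := mul_le_mul_of_nonneg_right hK hu.le
      rw [add_mul, one_div, inv_mul_cancel₀ hu.ne'] at this
      exact this
    rw [abs_le] at hp
    obtain ⟨hp1, hp2⟩ := hp
    have hα' := abs_le.1 hα
    have hβ' := abs_le.1 hβ
    rcases le_abs.1 hαβ with h | h
    · right; left
      refine ⟨h, ?_, ?_, ?_, ?_, ?_, ?_⟩ <;> linarith [hα'.1, hα'.2, hβ'.1, hβ'.2]
    · right; right; right
      refine ⟨by linarith, hα, hβ, ?_, ?_, ?_⟩ <;> linarith [hα'.1, hα'.2, hβ'.1, hβ'.2]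
  · rintro r c ⟨α, p, β, rfl, h⟩
    obtain ⟨h1, h2, h3⟩ := BNo.abs_bound hu h
    exact bch_ok h1 h2 h3
  · rintro r c c' ⟨α, p, β, rfl, h⟩ hc
    obtain ⟨b1, b2, b3⟩ := BNo.abs_bound hu h
    have b1' := abs_le.1 b1
    have b2' := abs_le.1 b2
    have b3' := abs_le.1 b3
    rcases h with h | h | h | h
    · exact absurd hc (not_cstep_of_wsorted (bch_ok b1 b2 b3)
        (bch_wsorted h.1 h.2.1 b3'.2))
    · obtain ⟨p', β', -, e, h1, h2, h3⟩ := flip_right b1'.1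
        (by linarith [h.1] : α < β) (by linarith [h.2.2.2.2.1] : β < p) b2'.2
      obtain ⟨r', hr', hst⟩ := BNo.step_R hu hB.hlp.1 hB.hlp.2 h h1 h2 h3
      exact ⟨r', hr', α, p', β', e c' hc, hst⟩
    · obtain ⟨α', p', -, e, h1, h2, h3⟩ := flip_left b2'.1
        (by linarith [h.2.2.2.2.1] : p < α) (by linarith [h.1] : α < β) b3'.2
      obtain ⟨r', hr', hst⟩ := BNo.step_L hu hB.hlp.1 hB.hlp.2 h h1 h2 h3
      exact ⟨r', hr', α', p', β, e c' hc, hst⟩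
    · obtain ⟨s, h1, h2, -, e⟩ := flip_all b3'.1
        (by linarith [h.1] : β < α) (by linarith [h.2.2.2.1] : α < p) b2'.2
        (by linarith [h.1])
      obtain ⟨r', hr', hst⟩ := BNo.step_D hu h h1 h2
      exact ⟨r', hr', _, _, _, e c' hc, hst⟩

end Pool.Agent.Helper20.Flip
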