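import Pool.Agent.Helper96.PolyList
import Pool.Agent.Helper20.Flip.Lang

/-!
# Binary arithmetic in polynomial time
-/

set_option autoImplicit false

namespace Pool.Agent.Helper20.Flip

open Pool.Agent.Helper96

theorem val_nil : val [] = 0 := rfl
theorem val_cons (b : Bool) (l : List Bool) : val (b :: l) = (if b then 1 else 0) + 2 * val l := rfl

theorem val_append (l m : List Bool) : val (l ++ m) = val l + 2 ^ l.length * val m := by
  induction l with
  | nil => simp [val_nil]
  | cons b l ih =>
    rw [List.cons_append, val_cons, val_cons, ih, List.length_cons, pow_succ]
    ring

theorem val_replicate_false (k : ℕ) : val (List.replicate k false) = 0 := by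
  induction k with
  | zero => rfl
  | succ k ih => rw [List.replicate_succ, val_cons, ih]; simp

theorem val_singleton (b : Bool) : val [b] = if b then 1 else 0 := by
  simp [val_cons, val_nil]

theorem val_lt (l : List Bool) : val l < 2 ^ l.length := by
  induction l with
  | nil => simp [val_nil]
  | cons b l ih =>
    rw [val_cons, List.length_cons, pow_succ]
    split_ifs <;> omega

/-- multiplication by `2 ^ k` -/
def shl (k : ℕ) (l : List Bool) : List Bool := List.replicate k false ++ l

theorem val_shl (k : ℕ) (l : List Bool) : val (shl k l) = 2 ^ k * val l := by
  rw [shl, val_append, val_replicate_false, List.length_replicate, zero_add]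

/-- one step of the addition; the state consists of the carry and the bits computed so far,
most significant bit first -/
def addStep (s : Bool × List Bool) (p : Bool × Bool) : Bool × List Bool :=
  ((p.1 && p.2) || (s.1 && (p.1 || p.2)),
    (bif s.1 then (bif p.1 then p.2 else !p.2) else (bif p.1 then !p.2 else p.2)) :: s.2)

/-- binary addition -/
def addB (x y : List Bool) : List Bool :=
  let s := ((x ++ List.replicate y.length false).zip (y ++ List.replicate x.length false)).foldl
    addStep (false, [])
  (s.1 :: s.2).reverse

theorem addStep_inv (l : List (Bool × Bool)) : ∀ s : Bool × List Bool,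
    val (l.foldl addStep s).2.reverse +
      2 ^ (l.foldl addStep s).2.length * (if (l.foldl addStep s).1 then 1 else 0) =
    val s.2.reverse + 2 ^ s.2.length * ((if s.1 then 1 else 0) + val (l.map Prod.fst) +
      val (l.map Prod.snd)) := by
  induction l with
  | nil => intro s; simp [val_nil]
  | cons p l ih =>
    intro s
    rw [List.foldl_cons, ih (addStep s p)]
    obtain ⟨c, acc⟩ := s
    obtain ⟨a, b⟩ := p
    simp only [List.map_cons, val_cons, addStep]
    rw [List.reverse_cons, val_append, List.length_reverse, List.length_cons, pow_succ]
    cases a <;> cases b <;> cases c <;> simp [val_cons, val_nil] <;> ring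

theorem addStep_length (l : List (Bool × Bool)) : ∀ s : Bool × List Bool,
    (l.foldl addStep s).2.length = s.2.length + l.length := by
  induction l with
  | nil => intro s; simp
  | cons p l ih =>
    intro s
    rw [List.foldl_cons, ih (addStep s p)]
    simp [addStep]
    omega

theorem length_addB (x y : List Bool) : (addB x y).length = x.length + y.length + 1 := by
  simp only [addB, List.length_reverse, List.length_cons, addStep_length, List.length_nil,
    List.length_zip, List.length_append, List.length_replicate]
  omega

theorem val_addB (x y : List Bool) : val (addB x y) = val x + val y := by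
  have h := addStep_inv ((x ++ List.replicate y.length false).zip
    (y ++ List.replicate x.length false)) (false, [])
  have hl : (x ++ List.replicate y.length false).length =
      (y ++ List.replicate x.length false).length := by simp [add_comm]
  rw [List.map_fst_zip hl.le, List.map_snd_zip hl.ge, val_append, val_append,
    val_replicate_false, val_replicate_false] at h
  simp only [addB, List.reverse_cons]
  rw [val_append, val_singleton, List.length_reverse, h]
  simp [val_nil]

/-- the sum of a list of numbers -/
def sumB (l : List (List Bool)) : List Bool := l.foldl addB []

theorem val_foldl_addB (l : List (List Bool)) : ∀ x, val (l.foldl addB x) =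
    val x + (l.map val).sum := by
  induction l with
  | nil => intro x; simp
  | cons a l ih =>
    intro x
    rw [List.foldl_cons, ih, val_addB, List.map_cons, List.sum_cons, add_assoc]

theorem val_sumB (l : List (List Bool)) : val (sumB l) = (l.map val).sum := by
  rw [sumB, val_foldl_addB, val_nil, zero_add]

theorem sz_bits_le (l : List Bool) : sz l ≤ 4 * l.length + 1 := by
  have := sz_list_le l 3 (fun a _ => sz_bool_le a)
  omega

theorem length_foldl_addB (l : List (List Bool)) : ∀ x, (l.foldl addB x).length ≤
    x.length + sz l := by
  induction l with
  | nil => intro x; simp
  | cons a l ih =>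
    intro x
    rw [List.foldl_cons]
    have h1 := ih (addB x a)
    rw [length_addB] at h1
    have h2 := length_lt_sz a
    rw [sz_cons]
    omega

section
variable {α : Type} [Enc α]

@[fun_prop]
theorem poly_addB {f g : α → List Bool} (hf : Poly f) (hg : Poly g) :
    Poly (fun a => addB (f a) (g a)) := by
  have h1 : Poly (fun a => ((f a ++ List.replicate (g a).length false).zip
      (g a ++ List.replicate (f a).length false))) := by fun_prop
  obtain ⟨B, hB, hm, hs⟩ := h1.szPB
  have h2 := Poly.foldl' (f := fun a => ((f a ++ List.replicate (g a).length false).zip
      (g a ++ List.replicate (f a).length false))) (g := fun _ => (false, ([] : List Bool)))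
    (h := fun _ s p => addStep s p) h1 (by fun_prop) (by unfold addStep; fun_prop)
    (fun n => 4 * B n + 8) (by fun_prop) (by
      intro a l' hl'
      have e : (List.foldl (fun s p => addStep s p) (false, ([] : List Bool)) l') =
        List.foldl addStep (false, ([] : List Bool)) l' := rfl
      rw [e]
      have h3 := addStep_length l' (false, [])
      have h4 := length_lt_sz l'
      have h5 := sz_prefix_le hl'
      have h6 := hs a
      have h7 : sz (List.foldl addStep (false, ([] : List Bool)) l') =
        sz (List.foldl addStep (false, ([] : List Bool)) l').1 +
        sz (List.foldl addStep (false, ([] : List Bool)) l').2 + 1 := by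
          rw [← sz_prod]
      have h8 := sz_bool_le (List.foldl addStep (false, ([] : List Bool)) l').1
      have h9 := sz_bits_le (List.foldl addStep (false, ([] : List Bool)) l').2
      simp only [List.length_nil, zero_add] at h3
      omega)
  unfold addB
  fun_prop

@[fun_prop]
theorem poly_shl {k : α → ℕ} {f : α → List Bool} (hk : Poly k) (hf : Poly f) :
    Poly (fun a => shl (k a) (f a)) := by
  unfold shl
  fun_prop

@[fun_prop]
theorem poly_sumB {f : α → List (List Bool)} (hf : Poly f) :
    Poly (fun a => sumB (f a)) := by
  obtain ⟨B, hB, hm, hs⟩ := hf.szPB
  unfold sumB
  refine Poly.foldl' (f := f) (g := fun _ => ([] : List Bool))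
    (h := fun _ x y => addB x y) hf (by fun_prop) (by fun_prop)
    (fun n => 4 * B n + 1) (by fun_prop) ?_
  intro a l' hl'
  have h1 := length_foldl_addB l' []
  have h2 := sz_bits_le (l'.foldl addB [])
  have h3 := sz_prefix_le hl'
  have h4 := hs a
  have e : List.foldl (fun x y => addB x y) ([] : List Bool) l' = l'.foldl addB [] := rfl
  rw [e]
  simp only [List.length_nil, zero_add] at h1
  omega

end

end Pool.Agent.Helper20.Flip
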